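import Pool.Agent.W402.HI.Defs

set_option autoImplicit false

namespace Pool.Agent.W324.HI.E4

open Pool.Agent.W402.HI

theorem main : P_E4 := by
  intro X _ _ _ S K hK hns z hzS hzT
  -- the resolvent
  set R : X →L[ℂ] X := resolvent S z with hR
  have hu : IsUnit (algebraMap ℂ (X →L[ℂ] X) z - S) := by
    simpa [spectrum.mem_resolventSet_iff] using hzS
  have hR1 : (algebraMap ℂ (X →L[ℂ] X) z - S) * R = 1 := by
    rw [hR, resolvent]
    exact Ring.mul_inverse_cancel _ hu
  have hfac : algebraMap ℂ (X →L[ℂ] X) z - (S + K) =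
      (algebraMap ℂ (X →L[ℂ] X) z - S) * (1 - R * K) := by
    rw [mul_sub, mul_one, ← mul_assoc, hR1, one_mul]; abel
  have hnu : ¬ IsUnit (1 - R * K) := by
    intro h
    apply hzT
    rw [spectrum.mem_resolventSet_iff, hfac]
    exact hu.mul h
  have h1 : (1 : ℂ) ∈ spectrum ℂ (R * K) := by
    rw [spectrum.mem_iff]
    simpa using hnu
  have hcomp : IsCompactOperator (R * K) := hK.clm_comp R
  have hev := (IsCompactOperator.hasEigenvalue_iff_mem_spectrum hcomp one_ne_zero).2 h1
  obtain ⟨x, hx⟩ := hev.exists_hasEigenvector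
  have hx0 : x ≠ 0 := hx.2
  have hRK : R (K x) = x := by
    have := hx.apply_eq_smul
    simpa using this
  have hSx : z • x - S x = K x := by
    have := congrArg (fun L : X →L[ℂ] X => L (K x)) hR1
    simp only [ContinuousLinearMap.mul_apply, ContinuousLinearMap.one_apply,
      ContinuousLinearMap.sub_apply, hRK] at this
    simpa [Algebra.algebraMap_eq_smul_one] using this
  have hTx : (S + K) x = z • x := by
    rw [ContinuousLinearMap.add_apply, ← hSx]; abel
  refine ⟨LinearMap.ker ((S + K - z • (1 : X →L[ℂ] X) : X →L[ℂ] X) : X →ₗ[ℂ] X), ?_, ?_, ?_, ?_⟩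
  · exact ContinuousLinearMap.isClosed_ker (S + K - z • (1 : X →L[ℂ] X))
  · intro h
    have : x ∈ LinearMap.ker ((S + K - z • (1 : X →L[ℂ] X) : X →L[ℂ] X) : X →ₗ[ℂ] X) := by
      rw [LinearMap.mem_ker]
      change (S + K - z • (1 : X →L[ℂ] X)) x = 0
      rw [ContinuousLinearMap.sub_apply, hTx]
      simp
    rw [h] at this
    exact hx0 (by simpa using this)
  · intro h
    apply hns
    refine ⟨z, ?_⟩
    ext y
    have : y ∈ LinearMap.ker ((S + K - z • (1 : X →L[ℂ] X) : X →L[ℂ] X) : X →ₗ[ℂ] X) := by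
      rw [h]; trivial
    rw [LinearMap.mem_ker] at this
    change (S + K - z • (1 : X →L[ℂ] X)) y = 0 at this
    rw [ContinuousLinearMap.sub_apply, sub_eq_zero] at this
    exact this
  · intro Q hQ y hy
    rw [LinearMap.mem_ker] at hy ⊢
    change (S + K - z • (1 : X →L[ℂ] X)) y = 0 at hy
    change (S + K - z • (1 : X →L[ℂ] X)) (Q y) = 0
    rw [ContinuousLinearMap.sub_apply, sub_eq_zero] at hy ⊢
    have h2 : Q ((S + K) y) = (S + K) (Q y) := by
      have := congrArg (fun L : X →L[ℂ] X => L y) hQ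
      simpa only [ContinuousLinearMap.mul_apply] using this
    rw [← h2, hy]
    simp

end Pool.Agent.W324.HI.E4
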